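import Pool.Agent.Lib.MP_4e3057_lc.CaseOne
import Pool.Agent.Lib.MP_4e3057_lc.CaseTwo

/-!
# There is no universal LOTS at any uncountable cardinal
-/

set_option autoImplicit false

open Filter Topology Set

universe u

namespace Pool.Agent.Results.MP_4e3057_lc.NoUniversalLOTS

open Pool.Agent.MP_4e3057_lc

/-- For every uncountable cardinal `κ` there is no universal LOTS at `κ`: whatever the linear
order `U` of cardinality `κ`, some linear order `L` of cardinality `κ` admits no order-preserving
injection into `U` that is continuous for the open interval topologies. -/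
theorem result (κ : Cardinal.{u}) (hκ : Cardinal.aleph0 < κ) :
    ¬ ∃ (U : Type u) (_ : LinearOrder U), Cardinal.mk U = κ ∧
      ∀ (L : Type u) [LinearOrder L], Cardinal.mk L = κ →
        ∃ f : L → U, StrictMono f ∧
          @Continuous L U (Preorder.topology L) (Preorder.topology U) f := by
  rintro ⟨U, hU, hcard, huniv⟩
  have hun : IsUniversalLOTS U := by
    intro L _ hL
    exact huniv L (hL.trans hcard)
  have h1 : Cardinal.aleph 1 ≤ Cardinal.mk U := by
    rw [hcard, Cardinal.aleph_one_le_iff]
    exact hκ
  rcases lt_or_ge (Cardinal.mk U) (2 ^ Cardinal.aleph.{u} 1) with h2 | h2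
  · exact not_universal_small U h1 h2 hun
  · refine not_universal_large U ?_ hun
    refine le_trans ?_ h2
    rw [← Cardinal.two_power_aleph0]
    exact Cardinal.power_le_power_left two_ne_zero Cardinal.aleph0_lt_aleph_one.le

end Pool.Agent.Results.MP_4e3057_lc.NoUniversalLOTS
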